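import Mathlib

/-!
# MP_8f8c07: an abelian 15-power free binary morphism with a 5-power free fixed point without `bb`

`h(a) = aaaabaaabaaab`, `h(b) = aaaabababab` (`a = false`, `b = true`). The incidence matrix has
determinant 19 and `|u|_a + 3 |u|_b` modulo 19 vanishes on `h(a)` and `h(b)`; the proper prefixes
of the two images take 15 values modulo 19, and each value determines the prefix, up to the common
suffix `ab`. So the 16 cuts of an abelian 15-power in `h(w)` have the same residue and can be moved
to the borders of the blocks. For the fixed point the factor `aaaa` marks the borders of the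
blocks and a 5-power of period at least 4 comes from a shorter one.
-/

set_option autoImplicit false

namespace Pool.Agent.Results.MP_8f8c07_co.FifthPowerFree

/-- The morphism of `{a, b}*` with the given images of the letters. -/
def mor (img : Bool → List Bool) (w : List Bool) : List Bool := w.flatMap img

/-- `u` is an abelian `k`-power. -/
def AbPow (k : ℕ) (u : List Bool) : Prop :=
  ∃ L : List (List Bool), L.length = k ∧ L.flatten = u ∧ (∀ x ∈ L, x ≠ []) ∧
    ∀ x ∈ L, ∀ y ∈ L, x.Perm y

/-- `w` is abelian `k`-power free. -/
def AbFree (k : ℕ) (w : List Bool) : Prop := ∀ u, u <:+: w → ¬ AbPow k u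

/-- The morphism with images `img` is abelian `k`-power free. -/
def MorFree (k : ℕ) (img : Bool → List Bool) : Prop := ∀ w, AbFree k w → AbFree k (mor img w)

/-- The prefix of length `m` of the infinite word `x`. -/
def pre (x : ℕ → Bool) (m : ℕ) : List Bool := (List.range m).map x

/-- `x` is the fixed point of the morphism with images `img` starting with `a = false`. -/
def IsFixedPoint (img : Bool → List Bool) (x : ℕ → Bool) : Prop :=
  (∃ u, u ≠ [] ∧ img false = false :: u) ∧
  (∀ n, (mor img)^[n] [false] = pre x ((mor img)^[n] [false]).length) ∧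
  ∀ N, ∃ n, N ≤ ((mor img)^[n] [false]).length

/-- The infinite word `x` has no factor `uuuuu` with `u` of length `p ≥ 1`. -/
def FiveFree (x : ℕ → Bool) : Prop := ¬ ∃ i p, 1 ≤ p ∧ ∀ t < 4 * p, x (i + t) = x (i + p + t)

/-- The images. -/
def I : Bool → List Bool
  | false => [false, false, false, false, true, false, false, false, true, false, false, false,
      true]
  | true => [false, false, false, false, true, false, true, false, true, false, true]

/-! ### The fixed point -/

theorem mor_append (img : Bool → List Bool) (u v : List Bool) :
    mor img (u ++ v) = mor img u ++ mor img v := by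
  simp [mor]

theorem mor_prefix (img : Bool → List Bool) {u v : List Bool} (h : u <+: v) :
    mor img u <+: mor img v := by
  obtain ⟨t, rfl⟩ := h
  exact ⟨mor img t, (mor_append _ _ _).symm⟩

/-- `h^n(a)` -/
def it (n : ℕ) : List Bool := (mor I)^[n] [false]

theorem it_succ (n : ℕ) : it (n + 1) = mor I (it n) := by
  unfold it
  rw [Function.iterate_succ_apply']

theorem it_prefix_succ (n : ℕ) : it n <+: it (n + 1) := by
  induction n with
  | zero => exact ⟨[false, false, false, true, false, false, false, true, false, false, false,
      true], rfl⟩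
  | succ n ih =>
    rw [it_succ n, it_succ (n + 1)]
    exact mor_prefix _ ih

theorem it_prefix {m n : ℕ} (h : m ≤ n) : it m <+: it n := by
  induction n, h using Nat.le_induction with
  | base => exact List.prefix_refl _
  | succ n _ ih => exact ih.trans (it_prefix_succ n)

theorem mor_length (w : List Bool) : 11 * w.length ≤ (mor I w).length := by
  induction w with
  | nil => simp [mor]
  | cons c w ih =>
    have : mor I (c :: w) = I c ++ mor I w := rfl
    rw [this, List.length_append, List.length_cons]
    have : 11 ≤ (I c).length := by cases c <;> decide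
    omega

theorem it_length (n : ℕ) : n + 1 ≤ (it n).length := by
  induction n with
  | zero => simp [it]
  | succ n ih =>
    rw [it_succ]
    have := mor_length (it n)
    omega

/-- The fixed point. -/
def x (n : ℕ) : Bool := (it n).getD n false

theorem pre_length (y : ℕ → Bool) (m : ℕ) : (pre y m).length = m := by simp [pre]

theorem pre_getElem (y : ℕ → Bool) (m i : ℕ) (h : i < (pre y m).length) : (pre y m)[i] = y i := by
  simp [pre]

theorem it_getElem (n m : ℕ) (h : m < (it n).length) : (it n)[m] = x m := by
  have hm : m < (it m).length := by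
    have := it_length m
    omega
  have hx : x m = (it m)[m] := by
    unfold x
    rw [List.getD_eq_getElem _ _ hm]
  rw [hx]
  rcases le_total m n with hmn | hmn
  · exact ((it_prefix hmn).getElem hm).symm
  · exact (it_prefix hmn).getElem h

theorem it_eq_pre (n : ℕ) : it n = pre x (it n).length := by
  apply List.ext_getElem
  · rw [pre_length]
  · intro i h1 h2
    rw [pre_getElem, it_getElem]

theorem pre_prefix {m n : ℕ} (h : m ≤ n) : pre x m <+: pre x n := by
  obtain ⟨k, rfl⟩ := Nat.exists_eq_add_of_le h
  refine ⟨(List.range k).map fun i => x (m + i), ?_⟩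
  unfold pre
  rw [List.range_add, List.map_append, List.map_map]
  rfl

theorem eq_pre_of_prefix {u : List Bool} {n : ℕ} (h : u <+: pre x n) : u = pre x u.length := by
  have hl := h.length_le
  rw [pre_length] at hl
  apply List.ext_getElem
  · rw [pre_length]
  · intro i h1 h2
    rw [pre_getElem, h.getElem h1, pre_getElem]

theorem mor_pre (m : ℕ) : mor I (pre x m) = pre x (mor I (pre x m)).length := by
  have h1 : pre x m <+: it m := by
    rw [it_eq_pre]
    apply pre_prefix
    have := it_length m
    omega
  have h2 := mor_prefix I h1
  rw [← it_succ, it_eq_pre (m + 1)] at h2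
  exact eq_pre_of_prefix h2

/-- The borders of the blocks. -/
def S (m : ℕ) : ℕ := (mor I (pre x m)).length

theorem pre_succ (y : ℕ → Bool) (m : ℕ) : pre y (m + 1) = pre y m ++ [y m] := by
  unfold pre
  rw [List.range_succ, List.map_append]
  rfl

theorem S_zero : S 0 = 0 := rfl

theorem S_succ (m : ℕ) : S (m + 1) = S m + (I (x m)).length := by
  unfold S
  rw [pre_succ, mor_append, List.length_append]
  simp [mor]

theorem x_block (m t : ℕ) (ht : t < (I (x m)).length) : x (S m + t) = (I (x m))[t] := by
  have h := mor_pre (m + 1)
  have h1 : mor I (pre x (m + 1)) = mor I (pre x m) ++ I (x m) := by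
    rw [pre_succ, mor_append]
    simp [mor]
  have h2 : S m + t < (mor I (pre x (m + 1))).length := by
    rw [h1, List.length_append]
    unfold S
    omega
  have h3 : (mor I (pre x (m + 1)))[S m + t] = x (S m + t) := by
    have : (mor I (pre x (m + 1)))[S m + t] = (pre x (mor I (pre x (m + 1))).length)[S m + t]'(by
      rw [pre_length]; exact h2) := by
      congr 1
    rw [this, pre_getElem]
  rw [← h3]
  have h4 : (mor I (pre x (m + 1)))[S m + t] = (mor I (pre x m) ++ I (x m))[S m + t]'(by
      rw [← h1]; exact h2) := by
    congr 1
  rw [h4, List.getElem_append_right (by unfold S; omega)]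
  congr 1
  unfold S
  omega

theorem x_blockD (m t : ℕ) (ht : t < (I (x m)).length) :
    x (S m + t) = (I (x m)).getD t false := by
  rw [x_block m t ht, List.getD_eq_getElem _ _ ht]

theorem len_ge (c : Bool) : 11 ≤ (I c).length := by cases c <;> decide
theorem len_le (c : Bool) : (I c).length ≤ 13 := by cases c <;> decide

theorem S_lt {m n : ℕ} (h : m < n) : S m + 11 ≤ S n := by
  induction n, h using Nat.le_induction with
  | base =>
    rw [S_succ]
    have := len_ge (x m)
    omega
  | succ n _ ih =>
    rw [S_succ]
    omega

theorem S_le {m n : ℕ} (h : m ≤ n) : S m ≤ S n := by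
  rcases h.lt_or_eq with h | h
  · have := S_lt h
    omega
  · rw [h]

theorem exists_block (q : ℕ) : ∃ m t, q = S m + t ∧ t < (I (x m)).length := by
  induction q with
  | zero =>
    refine ⟨0, 0, by rw [S_zero], ?_⟩
    have := len_ge (x 0)
    omega
  | succ q ih =>
    obtain ⟨m, t, h1, h2⟩ := ih
    by_cases h : t + 1 < (I (x m)).length
    · exact ⟨m, t + 1, by omega, h⟩
    · refine ⟨m + 1, 0, ?_, ?_⟩
      · rw [S_succ]
        omega
      · have := len_ge (x (m + 1))
        omega

/-- The letters of three consecutive blocks. -/
theorem x_blocks (m s : ℕ)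
    (hs : s < (I (x m) ++ (I (x (m + 1)) ++ I (x (m + 2)))).length) :
    x (S m + s) = (I (x m) ++ (I (x (m + 1)) ++ I (x (m + 2))))[s] := by
  simp only [List.length_append] at hs
  by_cases h1 : s < (I (x m)).length
  · rw [List.getElem_append_left h1, x_block _ _ h1]
  · rw [List.getElem_append_right (by omega)]
    by_cases h2 : s - (I (x m)).length < (I (x (m + 1))).length
    · rw [List.getElem_append_left h2, ← x_block _ _ h2, S_succ]
      congr 1
      omega
    · rw [List.getElem_append_right (by omega), ← x_block _ _ (by omega), S_succ, S_succ]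
      congr 1
      omega

/-- Local properties of three consecutive blocks. -/
theorem local_check : ∀ c0 c1 c2 : Bool, ∀ t < (I c0).length,
    let u := I c0 ++ (I c1 ++ I c2)
    (t ≠ 0 → u.getD t true = true ∨ u.getD (t + 1) true = true ∨ u.getD (t + 2) true = true ∨
      u.getD (t + 3) true = true) ∧
    ¬ (u.getD t false = true ∧ u.getD (t + 1) false = true) ∧
    (∃ s < 4, u.getD (t + s) false ≠ u.getD (t + 1 + s) false) ∧
    (∃ s < 8, u.getD (t + s) false ≠ u.getD (t + 2 + s) false) ∧
    (∃ s < 12, u.getD (t + s) false ≠ u.getD (t + 3 + s) false) := by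
  decide

theorem x_getD (m s : ℕ) (d : Bool) (hs : s < 33) :
    (I (x m) ++ (I (x (m + 1)) ++ I (x (m + 2)))).getD s d = x (S m + s) := by
  have h1 := len_ge (x m)
  have h2 := len_ge (x (m + 1))
  have h3 := len_ge (x (m + 2))
  have h : s < (I (x m) ++ (I (x (m + 1)) ++ I (x (m + 2)))).length := by
    simp only [List.length_append]
    omega
  rw [List.getD_eq_getElem _ _ h, ← x_blocks m s h]

theorem marker {q : ℕ} (h0 : x q = false) (h1 : x (q + 1) = false) (h2 : x (q + 2) = false)
    (h3 : x (q + 3) = false) : ∃ m, q = S m := by
  obtain ⟨m, t, rfl, ht⟩ := exists_block q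
  have hl := len_le (x m)
  by_cases h : t = 0
  · exact ⟨m, by omega⟩
  · have := (local_check (x m) (x (m + 1)) (x (m + 2)) t ht).1 h
    rw [x_getD _ _ _ (by omega), x_getD _ _ _ (by omega), x_getD _ _ _ (by omega),
      x_getD _ _ _ (by omega)] at this
    simp only [← add_assoc] at this
    simp [h0, h1, h2, h3] at this

theorem start (m : ℕ) : x (S m) = false ∧ x (S m + 1) = false ∧ x (S m + 2) = false ∧
    x (S m + 3) = false := by
  have h := len_ge (x m)
  have h0 := x_blockD m 0 (by omega)
  have h1 := x_blockD m 1 (by omega)
  have h2 := x_blockD m 2 (by omega)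
  have h3 := x_blockD m 3 (by omega)
  rw [Nat.add_zero] at h0
  rw [h0, h1, h2, h3]
  cases x m <;> exact ⟨rfl, rfl, rfl, rfl⟩

theorem no_bb (i : ℕ) : ¬ (x i = true ∧ x (i + 1) = true) := by
  obtain ⟨m, t, rfl, ht⟩ := exists_block i
  have hl := len_le (x m)
  have := (local_check (x m) (x (m + 1)) (x (m + 2)) t ht).2.1
  rw [x_getD _ _ _ (by omega), x_getD _ _ _ (by omega)] at this
  exact this

/-- The letter with index 6 of the block determines the block. -/
theorem six (m : ℕ) : x (S m + 6) = x m := by
  have h := len_ge (x m)
  rw [x_blockD m 6 (by omega)]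
  cases x m <;> rfl

/-- The third letter from the end of the block determines the block. -/
theorem third (m : ℕ) : x (S (m + 1) - 3) = x m := by
  have h := len_ge (x m)
  have : S (m + 1) - 3 = S m + ((I (x m)).length - 3) := by
    rw [S_succ]
    omega
  rw [this, x_blockD m _ (by omega)]
  cases x m <;> rfl

theorem five_free : FiveFree x := by
  rintro ⟨i, n, hn, hper⟩
  induction n using Nat.strong_induction_on generalizing i with
  | _ n ih =>
  by_cases hn4 : n < 4
  · obtain ⟨m, t, rfl, ht⟩ := exists_block i
    have hl := len_le (x m)
    have hc := local_check (x m) (x (m + 1)) (x (m + 2)) t ht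
    have key : ∀ s, s < 4 * n → (I (x m) ++ (I (x (m + 1)) ++ I (x (m + 2)))).getD (t + s) false =
        (I (x m) ++ (I (x (m + 1)) ++ I (x (m + 2)))).getD (t + n + s) false := by
      intro s hs
      rw [x_getD _ _ _ (by omega), x_getD _ _ _ (by omega)]
      have := hper s hs
      rw [show S m + (t + s) = S m + t + s by ring, this]
      congr 1
      ring
    obtain rfl | rfl | rfl : n = 1 ∨ n = 2 ∨ n = 3 := by omega
    · obtain ⟨s, hs, hs'⟩ := hc.2.2.1
      exact hs' (key s hs)
    · obtain ⟨s, hs, hs'⟩ := hc.2.2.2.1
      exact hs' (key s hs)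
    · obtain ⟨s, hs, hs'⟩ := hc.2.2.2.2
      exact hs' (key s hs)
  · push Not at hn4
    have hper' : ∀ q, i ≤ q → q < i + 4 * n → x q = x (q + n) := by
      intro q h1 h2
      have := hper (q - i) (by omega)
      rw [show i + (q - i) = q by omega, show i + n + (q - i) = q + n by omega] at this
      exact this
    -- the first border after `i`
    obtain ⟨m0, h0, h0', hmin⟩ : ∃ m0, i ≤ S m0 ∧ S m0 < i + 13 ∧ ∀ m, m < m0 → S m < i := by
      obtain ⟨m, t, hi, ht⟩ := exists_block i
      have hl := len_le (x m)
      by_cases h : t = 0
      · refine ⟨m, by omega, by omega, fun m' hm' => ?_⟩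
        have := S_lt hm'
        omega
      · refine ⟨m + 1, ?_, ?_, fun m' hm' => ?_⟩
        · rw [S_succ]
          omega
        · rw [S_succ]
          omega
        · have := S_le (show m' ≤ m by omega)
          omega
    obtain ⟨s0, s1, s2, s3⟩ := start m0
    rw [hper' _ (by omega) (by omega)] at s0 s1 s2 s3
    obtain ⟨m1, hm1⟩ := marker (q := S m0 + n) s0 (by rw [← s1]; congr 1; ring)
      (by rw [← s2]; congr 1; ring) (by rw [← s3]; congr 1; ring)
    have hlt : m0 < m1 := by
      by_contra h
      have := S_le (show m1 ≤ m0 by omega)
      omega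
    obtain ⟨k, rfl⟩ := Nat.exists_eq_add_of_lt hlt
    set K := k + 1 with hK
    have hm1' : S m0 + n = S (m0 + K) := by rw [hm1]; rfl
    -- the general continuation
    have cont : ∀ M, S M ≤ i + 4 → S M + n = S (M + K) → x M = x (M + K) → (∀ j, 0 < j → i ≤ S (M + j)) →
        ∀ j, j ≤ 4 * K → (S (M + j) + n = S (M + j + K) ∧ ∀ j' < j, x (M + j') = x (M + j' + K)) := by
      intro M hM1 hM2 hM3 hM4 j
      induction j with
      | zero => exact fun _ => ⟨hM2, fun j' h => absurd h (by omega)⟩
      | succ j ihj =>
        intro hj
        obtain ⟨e1, e2⟩ := ihj (by omega)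
        have hS : ∀ j', j' ≤ j → S (M + j') + n = S (M + j' + K) := by
          intro j' hj'
          induction j' with
          | zero => exact hM2
          | succ j' ih' =>
            have a1 := ih' (by omega)
            have a2 := e2 j' (by omega)
            rw [show M + (j' + 1) = M + j' + 1 by ring, S_succ,
              show M + j' + 1 + K = M + j' + K + 1 by ring, S_succ, a2, ← a1]
            ring
        have hb : ∀ r, ∀ j' ≤ j, j' < (r + 1) * K → S (M + j') + 11 ≤ S M + (r + 1) * n := by
          intro r
          induction r with
          | zero =>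
            intro j' _ h2
            have := S_lt (show M + j' < M + K by omega)
            omega
          | succ r ihr =>
            intro j' h1 h2
            by_cases h3 : j' < (r + 1) * K
            · have := ihr j' h1 h3
              nlinarith
            · have h4 : K ≤ j' := by nlinarith
              have h5 := ihr (j' - K) (by omega) (by
                have : (r + 1 + 1) * K = (r + 1) * K + K := by ring
                omega)
              have h6 := hS (j' - K) (by omega)
              rw [show M + (j' - K) + K = M + j' by omega] at h6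
              rw [← h6]
              nlinarith
        have hb' := hb 3 j le_rfl (by omega)
        have hx : x (M + j) = x (M + j + K) := by
          by_cases hj0 : j = 0
          · rw [hj0]
            exact hM3
          · have h1 := hM4 j (by omega)
            have h2 := hper' (S (M + j) + 6) (by omega) (by omega)
            rw [six] at h2
            rw [h2, ← six (M + j + K), ← e1]
            congr 1
            ring
        refine ⟨?_, ?_⟩
        · rw [show M + (j + 1) = M + j + 1 by ring, S_succ,
            show M + j + 1 + K = M + j + K + 1 by ring, S_succ, hx, ← e1]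
          ring
        · intro j' hj'
          rcases Nat.lt_succ_iff_lt_or_eq.1 hj' with h | h
          · exact e2 j' h
          · rw [h]
            exact hx
    have fin : ∀ M, S M ≤ i + 4 → S M + n = S (M + K) → x M = x (M + K) →
        (∀ j, 0 < j → i ≤ S (M + j)) → False := by
      intro M h1 h2 h3 h4
      obtain ⟨_, h5⟩ := cont M h1 h2 h3 h4 (4 * K) le_rfl
      refine ih K ?_ M (by omega) fun t ht => ?_
      · have : ∀ r, S M + 11 * r ≤ S (M + r) := by
          intro r
          induction r with
          | zero => simp
          | succ r ihr =>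
            have := S_lt (show M + r < M + (r + 1) by omega)
            omega
        have := this K
        omega
      · rw [h5 t ht]
        congr 1
        ring
    by_cases hd : S m0 ≤ i + 4
    · refine fin m0 hd hm1' ?_ fun j hj => ?_
      · have h2 := hper' (S m0 + 6) (by omega) (by omega)
        rw [six] at h2
        rw [h2, ← six (m0 + K), ← hm1']
        congr 1
        ring
      · have := S_le (show m0 ≤ m0 + j by omega)
        omega
    · push Not at hd
      have hm0 : 1 ≤ m0 := by
        by_contra h
        have : m0 = 0 := by omega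
        rw [this, S_zero] at hd
        omega
      obtain ⟨M, rfl⟩ : ∃ M, m0 = M + 1 := ⟨m0 - 1, by omega⟩
      have hM := hmin M (by omega)
      have hx : x M = x (M + K) := by
        have h2 := hper' (S (M + 1) - 3) (by omega) (by omega)
        rw [third] at h2
        rw [h2, ← third (M + K)]
        congr 1
        rw [show M + K + 1 = M + 1 + K by ring, ← hm1']
        omega
      refine fin M (by omega) ?_ hx fun j hj => ?_
      · have h1 := S_succ M
        have h2 := S_succ (M + K)
        rw [show M + K + 1 = M + 1 + K by ring, ← hm1', ← hx] at h2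
        omega
      · have := S_le (show M + 1 ≤ M + j by omega)
        omega

/-! ### Abelian powers -/

/-- number of letters `b` among the first `c` letters -/
def T (w : List Bool) (c : ℕ) : ℕ := (w.take c).count true

/-- `w` has an abelian `k`-power with blocks of length `n` starting after `c` letters. -/
def Cuts (k : ℕ) (w : List Bool) : Prop :=
  ∃ c n q r : ℕ, 1 ≤ n ∧ c + k * n ≤ w.length ∧ ∀ i ≤ k, T w (c + i * n) = q + i * r

theorem perm_iff (u v : List Bool) : u.Perm v ↔ u.length = v.length ∧
    u.count true = v.count true := by
  constructor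
  · intro h
    exact ⟨h.length_eq, h.count_eq _⟩
  · rintro ⟨h1, h2⟩
    rw [List.perm_iff_count]
    have key : ∀ w : List Bool, w.count true + w.count false = w.length := by
      intro w
      induction w with
      | nil => rfl
      | cons a w ih =>
        rw [List.count_cons, List.count_cons, List.length_cons, ← ih]
        cases a
        · have h1 : (false == true) = false := rfl
          have h2 : (false == false) = true := rfl
          simp only [h1, h2, if_true, Bool.false_eq_true, if_false]
          omega
        · have h1 : (true == true) = true := rfl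
          have h2 : (true == false) = false := rfl
          simp only [h1, h2, if_true, Bool.false_eq_true, if_false]
          omega
    intro a
    cases a
    · have := key u
      have := key v
      omega
    · exact h2

theorem cuts_of_abPow {k : ℕ} {w u : List Bool} (hk : 1 ≤ k) (h : u <:+: w) (hu : AbPow k u) :
    Cuts k w := by
  obtain ⟨s, t, rfl⟩ := h
  obtain ⟨L, hL, rfl, hne, hperm⟩ := hu
  obtain ⟨y, L', rfl⟩ : ∃ y L', L = y :: L' := by
    cases L with
    | nil => simp at hL; omega
    | cons y L' => exact ⟨y, L', rfl⟩
  set L := y :: L' with hLdef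
  have hlen : ∀ z ∈ L, z.length = y.length := fun z hz =>
    ((perm_iff _ _).1 (hperm z hz y (by simp [hLdef]))).1
  have hcnt : ∀ z ∈ L, z.count true = y.count true := fun z hz =>
    ((perm_iff _ _).1 (hperm z hz y (by simp [hLdef]))).2
  have hflat : ∀ L : List (List Bool), (∀ z ∈ L, z.length = y.length) →
      L.flatten.length = L.length * y.length := by
    intro L
    induction L with
    | nil => intro _; simp
    | cons z L ih =>
      intro h
      rw [List.flatten_cons, List.length_append, ih fun z hz => h z (by simp [hz]),
        h z (by simp), List.length_cons]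
      ring
  have hfc : ∀ L : List (List Bool), (∀ z ∈ L, z.count true = y.count true) →
      L.flatten.count true = L.length * y.count true := by
    intro L
    induction L with
    | nil => intro _; simp
    | cons z L ih =>
      intro h
      rw [List.flatten_cons, List.count_append, ih fun z hz => h z (by simp [hz]),
        h z (by simp), List.length_cons]
      ring
  refine ⟨s.length, y.length, s.count true, y.count true, ?_, ?_, ?_⟩
  · have := hne y (by simp [hLdef])
    exact List.length_pos_iff.2 this
  · rw [List.length_append, List.length_append, hflat L hlen, hL]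
    omega
  · intro i hi
    have h1 : L.flatten = (L.take i).flatten ++ (L.drop i).flatten := by
      rw [← List.flatten_append, List.take_append_drop]
    have h2 : ((L.take i).flatten).length = i * y.length := by
      rw [hflat _ fun z hz => hlen z (List.mem_of_mem_take hz), List.length_take, hL,
        Nat.min_eq_left hi]
    have h3 : (s ++ L.flatten ++ t).take (s.length + i * y.length) = s ++ (L.take i).flatten := by
      rw [h1, List.append_assoc, List.append_assoc, ← h2, ← List.length_append, ← List.append_assoc,
        List.take_left']
      rfl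
    unfold T
    rw [h3, List.count_append, hfc _ fun z hz => hcnt z (List.mem_of_mem_take hz),
      List.length_take, hL, Nat.min_eq_left hi]

theorem abPow_of_cuts {k : ℕ} {w : List Bool} (h : Cuts k w) :
    ∃ u, u <:+: w ∧ AbPow k u := by
  obtain ⟨c, n, q, r, hn, hc, hT⟩ := h
  set B : ℕ → List Bool := fun i => (w.drop (c + i * n)).take n with hB
  have hBl : ∀ i < k, (B i).length = n := by
    intro i hi
    simp only [hB, List.length_take, List.length_drop]
    have : (i + 1) * n ≤ k * n := Nat.mul_le_mul_right _ hi
    have : (i + 1) * n = i * n + n := by ring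
    omega
  have hstep : ∀ i < k, w.take (c + (i + 1) * n) = w.take (c + i * n) ++ B i := by
    intro i _
    rw [show c + (i + 1) * n = c + i * n + n by ring, List.take_add]
  have hBc : ∀ i < k, (B i).count true = r := by
    intro i hi
    have h1 := hT i hi.le
    have h2 := hT (i + 1) hi
    unfold T at h1 h2
    rw [hstep i hi, List.count_append, h1] at h2
    have : (i + 1) * r = i * r + r := by ring
    omega
  have hpre : ∀ j ≤ k, w.take (c + j * n) = w.take c ++ ((List.range j).map B).flatten := by
    intro j
    induction j with
    | zero => intro _; simp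
    | succ j ih =>
      intro hj
      rw [hstep j hj, ih (by omega), List.range_succ, List.map_append, List.flatten_append,
        List.append_assoc]
      simp
  refine ⟨((List.range k).map B).flatten, ⟨w.take c, w.drop (c + k * n), ?_⟩,
    (List.range k).map B, by simp, rfl, ?_, ?_⟩
  · rw [← hpre k le_rfl, List.take_append_drop]
  · intro z hz
    obtain ⟨i, hi, rfl⟩ := List.mem_map.1 hz
    have := hBl i (List.mem_range.1 hi)
    intro h
    rw [h] at this
    simp at this
    omega
  · intro z hz z' hz'
    obtain ⟨i, hi, rfl⟩ := List.mem_map.1 hz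
    obtain ⟨i', hi', rfl⟩ := List.mem_map.1 hz'
    rw [perm_iff, hBl i (List.mem_range.1 hi), hBl i' (List.mem_range.1 hi'),
      hBc i (List.mem_range.1 hi), hBc i' (List.mem_range.1 hi')]
    exact ⟨rfl, rfl⟩

theorem mor_take_succ (w : List Bool) (m : ℕ) (hm : m < w.length) :
    mor I (w.take (m + 1)) = mor I (w.take m) ++ I w[m] := by
  rw [← List.take_concat_get' w m hm, mor_append]
  simp [mor]

/-- length and number of `b`s of the image of a prefix -/
theorem mor_counts (w : List Bool) : (mor I w).length + 2 * w.count true = 13 * w.length ∧
    (mor I w).count true = 3 * w.length + w.count true := by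
  induction w with
  | nil => simp [mor]
  | cons c w ih =>
    have : mor I (c :: w) = I c ++ mor I w := rfl
    rw [this, List.length_append, List.count_append, List.length_cons, List.count_cons]
    obtain ⟨h1, h2⟩ := ih
    cases c
    · simp only [I, List.length_cons, List.length_nil, Bool.false_eq_true, beq_iff_eq, if_false]
      constructor
      · omega
      · rw [h2]
        simp
        ring
    · simp only [I, List.length_cons, List.length_nil, beq_self_eq_true, if_true]
      constructor
      · omega
      · rw [h2]
        simp
        ring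

/-- Every cut of `h(w)` lies in a block or at the end. -/
theorem cut_block (w : List Bool) : ∀ c ≤ (mor I w).length, ∃ m ≤ w.length, ∃ t κ,
    c = (mor I (w.take m)).length + t ∧ T (mor I w) c = (mor I (w.take m)).count true + κ ∧
    ((t = 0 ∧ κ = 0) ∨ (m < w.length ∧ ∃ a : Bool, w[m]? = some a ∧ t < (I a).length ∧
      κ = ((I a).take t).count true)) := by
  have key : ∀ M ≤ w.length, ∀ c ≤ (mor I (w.take M)).length, ∃ m ≤ w.length, ∃ t κ,
    c = (mor I (w.take m)).length + t ∧ T (mor I w) c = (mor I (w.take m)).count true + κ ∧
    ((t = 0 ∧ κ = 0) ∨ (m < w.length ∧ ∃ a : Bool, w[m]? = some a ∧ t < (I a).length ∧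
      κ = ((I a).take t).count true)) := by
    intro M
    induction M with
    | zero =>
      intro _ c hc
      have : c = 0 := by simpa [mor] using hc
      subst this
      exact ⟨0, by omega, 0, 0, by simp [mor], by simp [T, mor], Or.inl ⟨rfl, rfl⟩⟩
    | succ M ih =>
      intro hM c hc
      by_cases h : c ≤ (mor I (w.take M)).length
      · exact ih (by omega) c h
      · push Not at h
        have h1 := mor_take_succ w M (by omega)
        rw [h1, List.length_append] at hc
        have hsplit : mor I w = mor I (w.take (M + 1)) ++ mor I (w.drop (M + 1)) := by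
          rw [← mor_append, List.take_append_drop]
        by_cases h2 : c = (mor I (w.take M)).length + (I w[M]).length
        · refine ⟨M + 1, hM, 0, 0, ?_, ?_, Or.inl ⟨rfl, rfl⟩⟩
          · rw [h1, List.length_append, h2]
            rfl
          · have h3 : c = (mor I (w.take (M + 1))).length := by
              rw [h1, List.length_append, h2]
            have h4 : (mor I (w.take (M + 1)) ++ mor I (w.drop (M + 1))).take c =
                mor I (w.take (M + 1)) := List.take_left' h3.symm
            unfold T
            rw [hsplit, h4]
            rfl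
        · refine ⟨M, by omega, c - (mor I (w.take M)).length,
            ((I w[M]).take (c - (mor I (w.take M)).length)).count true, by omega, ?_,
            Or.inr ⟨by omega, w[M], by simp [List.getElem?_eq_getElem (show M < w.length by omega)],
              by omega, rfl⟩⟩
          unfold T
          rw [hsplit, h1, List.append_assoc, List.take_append, List.count_append,
            List.take_of_length_le h.le, List.take_append_of_le_length (by omega)]
  intro c hc
  have := key w.length le_rfl c
  rw [List.take_length] at this
  exact this hc

/-- The residues of the proper prefixes of the blocks. -/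
def V : List ℕ := [0, 1, 2, 3, 4, 7, 8, 9, 10, 11, 12, 13, 14, 15, 16]

theorem ap_check : ∀ f < 19, ∀ g < 19, (∀ i < 16, (f + i * g) % 19 ∈ V) → g = 0 := by
  decide

theorem prefix_check : ∀ a : Bool, ∀ t < (I a).length,
    (t + 2 * ((I a).take t).count true) % 19 ∈ V := by
  decide

/-- The residue determines the prefix, up to a common suffix of the blocks. -/
theorem shift_check0 : ∀ a b : Bool, ∀ t < (I a).length, ∀ t' < (I b).length,
    ((t + 2 * ((I a).take t).count true) % 19 < 15 ∧
    (t' + 2 * ((I b).take t').count true) % 19 = (t + 2 * ((I a).take t).count true) % 19) →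
    (t = t' ∧ ((I a).take t).count true = ((I b).take t').count true) := by
  decide

theorem shift_check (v : ℕ) (hv : v < 15) (a b : Bool) (t : ℕ) (ht : t < (I a).length) (t' : ℕ)
    (ht' : t' < (I b).length) (h1 : (t + 2 * ((I a).take t).count true) % 19 = v)
    (h2 : (t' + 2 * ((I b).take t').count true) % 19 = v) :
    t = t' ∧ ((I a).take t).count true = ((I b).take t').count true :=
  shift_check0 a b t ht t' ht' ⟨by omega, by omega⟩

theorem shift_check1 : ∀ a : Bool, ∀ t < (I a).length,
    15 ≤ (t + 2 * ((I a).take t).count true) % 19 →
    (t + (17 - (t + 2 * ((I a).take t).count true) % 19) = (I a).length ∧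
    ((I a).take t).count true + 1 = (I a).count true) := by
  decide

theorem shift_check' (v : ℕ) (hv : 15 ≤ v) (a : Bool) (t : ℕ) (ht : t < (I a).length)
    (h1 : (t + 2 * ((I a).take t).count true) % 19 = v) :
    t + (17 - v) = (I a).length ∧ ((I a).take t).count true + 1 = (I a).count true := by
  have := shift_check1 a t ht (by omega)
  rw [h1] at this
  exact this

theorem mor_free : MorFree 15 I := by
  intro w hw u hu hpow
  obtain ⟨c, n, q, r, hn, hc, hT⟩ := cuts_of_abPow (by norm_num) hu hpow
  have hcut : ∀ i ≤ 15, ∃ m ≤ w.length, ∃ t κ,
      c + i * n = (mor I (w.take m)).length + t ∧ q + i * r = (mor I (w.take m)).count true + κ ∧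
      ((t = 0 ∧ κ = 0) ∨ (m < w.length ∧ ∃ a : Bool, w[m]? = some a ∧ t < (I a).length ∧
        κ = ((I a).take t).count true)) := by
    intro i hi
    have h1 : c + i * n ≤ (mor I w).length := by
      have : i * n ≤ 15 * n := Nat.mul_le_mul_right _ hi
      omega
    obtain ⟨m, hm, t, κ, h2, h3, h4⟩ := cut_block w _ h1
    rw [hT i hi] at h3
    exact ⟨m, hm, t, κ, h2, h3, h4⟩
  choose! m hm t κ h1 h2 h3 using hcut
  -- residues
  have hres : ∀ i ≤ 15, (c + i * n + 2 * (q + i * r)) % 19 = (t i + 2 * κ i) % 19 := by
    intro i hi
    have e1 := h1 i hi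
    have e2 := h2 i hi
    obtain ⟨e3, e4⟩ := mor_counts (w.take (m i))
    rw [e1, e2]
    omega
  have hV : ∀ i ≤ 15, (t i + 2 * κ i) % 19 ∈ V := by
    intro i hi
    rcases h3 i hi with ⟨e1, e2⟩ | ⟨_, a, _, e1, e2⟩
    · rw [e1, e2]
      decide
    · rw [e2]
      exact prefix_check a _ e1
  have hg : (n + 2 * r) % 19 = 0 := by
    refine ap_check ((c + 2 * q) % 19) (Nat.mod_lt _ (by norm_num)) _ (Nat.mod_lt _ (by norm_num))
      fun i hi => ?_
    have e1 := hV i (by omega)
    rw [← hres i (by omega)] at e1
    convert e1 using 1
    rw [Nat.add_mod, Nat.mul_mod]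
    simp only [Nat.mod_mod]
    rw [← Nat.mul_mod, ← Nat.add_mod]
    congr 1
    ring
  set v := (c + 2 * q) % 19 with hv
  have hvi : ∀ i ≤ 15, (t i + 2 * κ i) % 19 = v := by
    intro i hi
    rw [← hres i hi, hv]
    obtain ⟨s, hs⟩ := Nat.dvd_of_mod_eq_zero hg
    have : c + i * n + 2 * (q + i * r) = c + 2 * q + 19 * (i * s) := by
      have : i * n + 2 * (i * r) = i * (n + 2 * r) := by ring
      rw [hs] at this
      have h2 : i * (19 * s) = 19 * (i * s) := by ring
      omega
    rw [this]
    omega
  have hv19 : v < 19 := Nat.mod_lt _ (by norm_num)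
  -- new borders
  obtain ⟨M, dx, dy, hM, hMx, hMy⟩ : ∃ (M : ℕ → ℕ) (dx dy : ℤ), (∀ i ≤ 15, M i ≤ w.length) ∧
      (∀ i ≤ 15, ((mor I (w.take (M i))).length : ℤ) = c + i * n + dx) ∧
      (∀ i ≤ 15, ((mor I (w.take (M i))).count true : ℤ) = q + i * r + dy) := by
    by_cases hv15 : v < 15
    · -- shift to the left
      have hsame : ∀ i ≤ 15, t i = t 0 ∧ κ i = κ 0 := by
        intro i hi
        have key : ∀ i ≤ 15, ∃ a : Bool, t i < (I a).length ∧
            κ i = ((I a).take (t i)).count true := by
          intro i hi
          rcases h3 i hi with ⟨e1, e2⟩ | ⟨_, a, _, e1, e2⟩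
          · exact ⟨false, by rw [e1]; decide, by rw [e1, e2]; rfl⟩
          · exact ⟨a, e1, e2⟩
        obtain ⟨a, e1, e2⟩ := key i hi
        obtain ⟨b, e3, e4⟩ := key 0 (by omega)
        have e5 := hvi i hi
        have e6 := hvi 0 (by omega)
        rw [e2] at e5
        rw [e4] at e6
        obtain ⟨e7, e8⟩ := shift_check v hv15 a b _ e1 _ e3 e5 e6
        exact ⟨e7, by rw [e2, e4, e8]⟩
      refine ⟨m, -t 0, -κ 0, hm, fun i hi => ?_, fun i hi => ?_⟩
      · have e1 := h1 i hi
        have e2 := (hsame i hi).1
        zify at e1 e2
        linarith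
      · have e1 := h2 i hi
        have e2 := (hsame i hi).2
        zify at e1 e2
        linarith
    · push Not at hv15
      have key : ∀ i ≤ 15, ∃ a : Bool, w[m i]? = some a ∧ m i < w.length ∧
          t i + (17 - v) = (I a).length ∧ κ i + 1 = (I a).count true := by
        intro i hi
        have e5 := hvi i hi
        rcases h3 i hi with ⟨e1, e2⟩ | ⟨e0, a, ea, e1, e2⟩
        · rw [e1, e2] at e5
          omega
        · rw [e2] at e5
          obtain ⟨e6, e7⟩ := shift_check' v hv15 a _ e1 e5
          exact ⟨a, ea, e0, e6, by rw [e2, e7]⟩
      have hv17 : v ≤ 17 := by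
        by_contra hcon
        obtain ⟨a, _, _, _, _⟩ := key 0 (by omega)
        have := hV 0 (by omega)
        rw [hvi 0 (by omega)] at this
        have h18 : v = 18 := by omega
        rw [h18] at this
        revert this
        decide
      refine ⟨fun i => m i + 1, ((17 - v : ℕ) : ℤ), 1, fun i hi => ?_, fun i hi => ?_,
        fun i hi => ?_⟩
      · obtain ⟨_, _, e, _⟩ := key i hi
        exact e
      · obtain ⟨a, ea, e0, e1, e2⟩ := key i hi
        have e3 := mor_take_succ w (m i) e0
        have e4 : w[m i] = a := by
          rw [List.getElem?_eq_getElem e0] at ea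
          exact Option.some.inj ea
        have e5 := h1 i hi
        rw [e3, List.length_append, e4, ← e1]
        push_cast
        zify at e5
        linarith
      · obtain ⟨a, ea, e0, e1, e2⟩ := key i hi
        have e3 := mor_take_succ w (m i) e0
        have e4 : w[m i] = a := by
          rw [List.getElem?_eq_getElem e0] at ea
          exact Option.some.inj ea
        have e5 := h2 i hi
        rw [e3, List.count_append, e4, ← e2]
        push_cast
        zify at e5
        linarith
  -- the cuts of `w`
  obtain ⟨s, hs⟩ := Nat.dvd_of_mod_eq_zero hg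
  have hMi : ∀ i ≤ 15, (M i : ℤ) = M 0 + i * s := by
    intro i hi
    have e1 := hMx i hi
    have e2 := hMy i hi
    have e3 := hMx 0 (by omega)
    have e4 := hMy 0 (by omega)
    obtain ⟨e5, e6⟩ := mor_counts (w.take (M i))
    obtain ⟨e7, e8⟩ := mor_counts (w.take (M 0))
    rw [List.length_take, Nat.min_eq_left (hM i hi)] at e5 e6
    rw [List.length_take, Nat.min_eq_left (hM 0 (by omega))] at e7 e8
    zify at e5 e6 e7 e8 hs
    have : (i : ℤ) * n + 2 * (i * r) = 19 * (i * s) := by
      have : (i : ℤ) * n + 2 * (i * r) = i * (n + 2 * r) := by ring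
      rw [this, hs]
      ring
    push_cast at e3 e4
    linarith
  have hBi : ∀ i ≤ 15, ((w.take (M i)).count true : ℤ) = (w.take (M 0)).count true +
      i * ((r : ℤ) - 3 * s) := by
    intro i hi
    have e2 := hMy i hi
    have e4 := hMy 0 (by omega)
    have e0 := hMi i hi
    obtain ⟨e5, e6⟩ := mor_counts (w.take (M i))
    obtain ⟨e7, e8⟩ := mor_counts (w.take (M 0))
    rw [List.length_take, Nat.min_eq_left (hM i hi)] at e5 e6
    rw [List.length_take, Nat.min_eq_left (hM 0 (by omega))] at e7 e8
    zify at e5 e6 e7 e8
    push_cast at e4
    linarith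
  have hr0 : (0 : ℤ) ≤ (r : ℤ) - 3 * s := by
    have e1 := hBi 1 (by omega)
    have e2 := hMi 1 (by omega)
    have e3 : M 0 ≤ M 1 := by
      push_cast at e2
      have : (0 : ℤ) ≤ s := by positivity
      zify
      linarith
    have e4 : (w.take (M 0)).count true ≤ (w.take (M 1)).count true :=
      (List.take_sublist_take_left e3).count_le _
    zify at e4
    push_cast at e1
    linarith
  obtain ⟨r', hr'⟩ := Int.eq_ofNat_of_zero_le hr0
  have hcuts : Cuts 15 w := by
    refine ⟨M 0, s, (w.take (M 0)).count true, r', ?_, ?_, fun i hi => ?_⟩
    · by_contra h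
      have : s = 0 := by omega
      rw [this] at hs
      omega
    · have e1 := hMi 15 le_rfl
      have e2 := hM 15 le_rfl
      zify at e2 ⊢
      push_cast at e1
      linarith
    · have e1 := hMi i hi
      have e2 := hBi i hi
      have e3 : M i = M 0 + i * s := by
        zify
        exact e1
      rw [hr'] at e2
      unfold T
      rw [← e3]
      zify
      exact e2
  obtain ⟨u', hu', hp⟩ := abPow_of_cuts hcuts
  exact hw u' hu' hp

/-- There is a morphism of `{a, b}*` that is abelian `k`-power free for some `k ≥ 2` and has a
fixed point starting with `a` that is 5-power free and avoids `bb`. -/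
theorem result : ∃ (img : Bool → List Bool) (x : ℕ → Bool), (∃ k, 2 ≤ k ∧ MorFree k img) ∧
    IsFixedPoint img x ∧ FiveFree x ∧ ¬ ∃ i, x i = true ∧ x (i + 1) = true := by
  refine ⟨I, x, ⟨15, by norm_num, mor_free⟩, ⟨⟨_, ?_, rfl⟩, it_eq_pre, fun N => ⟨N, ?_⟩⟩, five_free,
    ?_⟩
  · simp
  · have := it_length N
    exact (Nat.le_succ N).trans this
  · rintro ⟨i, hi⟩
    exact no_bb i hi

end Pool.Agent.Results.MP_8f8c07_co.FifthPowerFree
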